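import Mathlib
import Pool.Agent.H451.XP.Def

/-!
# The conjecture of Beilinson for products of diagonal cubics: definitions
-/

set_option autoImplicit false

namespace Pool.Agent.H451.XV

open NumberField IsDedekindDomain
open Pool.Agent.H451.XP
open Pool.Agent.H451.CubT (DS E)
open scoped Classical PeriodPair

/-- The classes `(S, c)` of the cohomology of `X` of the degree `2 i - 1`: the direct summands
`H¹(E_{S,ty(c)})(1 - i)` of `H^(2 i - 1)(X)`. -/
abbrev Cod (m : ℕ) {r : ℕ} (n : Fin r → ℕ) (i : ℕ) : Type :=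
  {q : Idx m × ∀ t, Cl (n t) // (m - 3) / 2 + ∑ t, sh (q.2 t) + 1 = i}

section defs
variable {K : Type} [Field K] [NumberField K] {m r : ℕ} {n : Fin r → ℕ} (a : Fin m → 𝓞 K)
  (b : ∀ t : Fin r, Fin (n t) → 𝓞 K)

/-- On the half plane `Re s > i + 1/2` the function `Φ` is the `L`-function of `H^(2 i - 1)(X)`, without the
Euler factors at the primes which divide `3` or a coefficient. -/
def IsLX (i : ℕ) (Φ : ℂ → ℂ) : Prop :=
  ∃ (ι : Type) (_ : Fintype ι) (deg : ι → ℕ) (α : HeightOneSpectrum (𝓞 K) → ι → ℂ),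
    (∀ v, Gdx a b v → IsFrobX a b v deg (α v)) ∧
    ∀ s : ℂ, (i : ℝ) + 1 / 2 < s.re →
      HasProd (fun v : {v // Gdx a b v} => ∏ j ∈ Finset.univ.filter (fun j => deg j + 1 = 2 * i),
        (1 - α v.1 j * (Ideal.absNorm v.1.asIdeal : ℂ) ^ (-s))⁻¹) (Φ s)

/-- `Φ` is a continuation of the `L`-function of `H^(2 i - 1)(X)` to a meromorphic function on a connected
open set which contains the half plane and the centre `i`. -/
def IsContX (i : ℕ) (Φ : ℂ → ℂ) : Prop :=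
  IsLX a b i Φ ∧ ∃ U : Set ℂ, IsOpen U ∧ IsPreconnected U ∧ (i : ℂ) ∈ U ∧
    (∀ s : ℂ, (i : ℝ) + 1 / 2 < s.re → s ∈ U) ∧ MeromorphicOn Φ U

/-- `M S θ` is a basis `(ω₁, ω₂)` of the lattice of the periods of the differential `dx / (2 y + D)` on
the elliptic curve `y ^ 2 + τ(D) y = x ^ 3` over `ℂ`, `D = D_{S,θ}`, that is, of the lattice with `g₂ = 0` and
`g₃ = -τ(D) ^ 2`, for all `S` and `θ`. -/
def IsPerX (τ : K →+* ℂ) (M : Idx m → (∀ t, Ty (n t)) → PeriodPair) : Prop :=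
  ∀ (S : Idx m) (θ : ∀ t, Ty (n t)),
    (M S θ).g₂ = 0 ∧ (M S θ).g₃ = -(τ ((DX a b S.1 θ : 𝓞 K) : K)) ^ 2

/-- The period matrix `Π` of `H^(2 i - 1)(X)`, for its decomposition into the `H¹(E_{S,θ})(1 - i)`: the
blocks are the real parts of the periods `ω₁, ω₂` of `ν = dx / (2 y + D_{S,θ})` and of the periods of `δ ν`,
where `δ ^ 2 = -3`.  (`ν`, `δ ν` is a basis over `ℚ` of the differentials of `E_{S,θ}` over `K`.) -/
noncomputable def PMX (τ : K →+* ℂ) (δ : K) (M : Idx m → (∀ t, Ty (n t)) → PeriodPair) (i : ℕ) :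
    Matrix (Fin 2 × Cod m n i) (Fin 2 × Cod m n i) ℝ :=
  Matrix.blockDiagonal fun q =>
    !![(M q.1.1 fun t => ty (q.1.2 t)).ω₁.re, (M q.1.1 fun t => ty (q.1.2 t)).ω₂.re;
      (τ δ * (M q.1.1 fun t => ty (q.1.2 t)).ω₁).re, (τ δ * (M q.1.1 fun t => ty (q.1.2 t)).ω₂).re]

/-- For every `i` the `L`-function of `H^(2 i - 1)(X)` is entire, and its value at the centre `i` is a
rational multiple (perhaps zero) of `det Π`. -/
def FormulaX : Prop := ∀ i : ℕ, ∃ L : ℂ → ℂ, Differentiable ℂ L ∧ IsLX a b i L ∧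
  ∀ (τ : K →+* ℂ) (δ : K) (M : Idx m → (∀ t, Ty (n t)) → PeriodPair), δ ^ 2 = -3 →
    IsPerX a b τ M → ∃ q : ℚ, L i = q * (PMX τ δ M i).det

/-- All the parts of the conjecture for `X` in all the codimensions `i`, with `V^i = 0`. -/
structure AllPartsX : Prop where
  /-- the groups `E_{S,θ}(K)` are finite, (i) and (ii) -/
  finite : ∀ (S : Idx m) (θ : ∀ t, Ty (n t)), Finite (E ((DX a b S.1 θ : 𝓞 K) : K)).toAffine.Point
  /-- the `L`-functions have entire continuations (H1) -/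
  entire : ∀ i : ℕ, ∃ L : ℂ → ℂ, Differentiable ℂ L ∧ IsLX a b i L
  /-- (iii) -/
  order : ∀ (i : ℕ) (Φ : ℂ → ℂ), IsContX a b i Φ → meromorphicOrderAt Φ i = 0
  /-- (iv) -/
  value : ∀ (i : ℕ) (Φ : ℂ → ℂ), IsContX a b i Φ → ∀ (τ : K →+* ℂ) (δ : K)
    (M : Idx m → (∀ t, Ty (n t)) → PeriodPair), δ ^ 2 = -3 → IsPerX a b τ M →
      ∃ q : ℚ, q ≠ 0 ∧ meromorphicTrailingCoeffAt Φ i = q * (PMX τ δ M i).det

end defs

end Pool.Agent.H451.XV
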