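import Mathlib
import Pool.Agent.H451.XV.Def

/-!
# Uniqueness of the Euler factors
-/

set_option autoImplicit false
set_option linter.unusedSectionVars false
set_option linter.unusedVariables false

namespace Pool.Agent.H451.XV

open NumberField IsDedekindDomain
open Pool.Agent.H451.XP
open scoped Classical

/-- powers of different numbers are linearly independent -/
lemma pow_indep (Z : Finset ℂ) (h0 : ∀ z ∈ Z, z ≠ 0) (c : ℂ → ℂ)
    (h : ∀ k : ℕ, 1 ≤ k → ∑ z ∈ Z, c z * z ^ k = 0) : ∀ z ∈ Z, c z = 0 := by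
  have h1 : LinearIndependent ℂ (fun f : Multiplicative ℕ →* ℂ => (f : Multiplicative ℕ → ℂ)) :=
    linearIndependent_monoidHom (Multiplicative ℕ) ℂ
  have h2 : LinearIndependent ℂ (fun z : ℂ => ((powersHom ℂ z : Multiplicative ℕ →* ℂ) :
      Multiplicative ℕ → ℂ)) := h1.comp (fun z : ℂ => powersHom ℂ z) (powersHom ℂ).injective
  have h3 := (linearIndependent_iff'.1 h2) Z (fun z => c z * z) (by
    funext k
    rw [Finset.sum_apply, Pi.zero_apply]
    have h4 := h (Multiplicative.toAdd k + 1) (by omega)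
    rw [← h4]
    refine Finset.sum_congr rfl fun z _ => ?_
    rw [Pi.smul_apply, smul_eq_mul, powersHom_apply]
    ring)
  intro z hz
  exact (mul_eq_zero.1 (h3 z hz)).resolve_right (h0 z hz)

/-- **the weights and the power sums determine the products of each degree** -/
theorem prod_unique {ι ι' : Type} [Fintype ι] [Fintype ι'] {N : ℝ} (hN : 1 < N) {deg : ι → ℕ}
    {deg' : ι' → ℕ} {α : ι → ℂ} {α' : ι' → ℂ} (h1 : ∀ i, ‖α i‖ ^ 2 = N ^ deg i)
    (h2 : ∀ i, ‖α' i‖ ^ 2 = N ^ deg' i)
    (h : ∀ k : ℕ, 1 ≤ k → ∑ i, (-1) ^ deg i * α i ^ k = ∑ i, (-1) ^ deg' i * α' i ^ k) (d : ℕ)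
    (T : ℂ) :
    ∏ i ∈ Finset.univ.filter (fun i => deg i = d), (1 - α i * T)⁻¹ =
      ∏ i ∈ Finset.univ.filter (fun i => deg' i = d), (1 - α' i * T)⁻¹ := by
  have hN0 : (0 : ℝ) < N := by linarith
  have hinj : ∀ x y : ℕ, N ^ x = N ^ y → x = y := fun x y hxy =>
    pow_right_injective₀ hN0 hN.ne' hxy
  set Z : Finset ℂ := Finset.univ.image α ∪ Finset.univ.image α' with hZ
  have hne : ∀ z ∈ Z, z ≠ 0 := by
    intro z hz h0
    rw [hZ, Finset.mem_union, Finset.mem_image, Finset.mem_image] at hz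
    rcases hz with ⟨i, -, hi⟩ | ⟨i, -, hi⟩
    · have h3 := h1 i
      rw [hi, h0, norm_zero] at h3
      have := pow_pos hN0 (deg i)
      norm_num at h3
      linarith
    · have h3 := h2 i
      rw [hi, h0, norm_zero] at h3
      have := pow_pos hN0 (deg' i)
      norm_num at h3
      linarith
  -- the signed counts
  set c : ℂ → ℂ := fun z => ∑ i ∈ Finset.univ.filter (fun i => α i = z), (-1 : ℂ) ^ deg i -
    ∑ i ∈ Finset.univ.filter (fun i => α' i = z), (-1 : ℂ) ^ deg' i with hc
  have hsum : ∀ k : ℕ, 1 ≤ k → ∑ z ∈ Z, c z * z ^ k = 0 := by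
    intro k hk
    have e1 : ∑ z ∈ Z, (∑ i ∈ Finset.univ.filter (fun i => α i = z), (-1 : ℂ) ^ deg i) * z ^ k =
        ∑ i, (-1) ^ deg i * α i ^ k := by
      rw [← Finset.sum_fiberwise_of_maps_to (s := Finset.univ) (t := Z) (g := α) (fun i _ => by
        rw [hZ, Finset.mem_union]
        exact Or.inl (Finset.mem_image_of_mem _ (Finset.mem_univ i)))]
      refine Finset.sum_congr rfl fun z _ => ?_
      rw [Finset.sum_mul]
      refine Finset.sum_congr rfl fun i hi => ?_
      rw [(Finset.mem_filter.1 hi).2]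
    have e2 : ∑ z ∈ Z, (∑ i ∈ Finset.univ.filter (fun i => α' i = z), (-1 : ℂ) ^ deg' i) * z ^ k =
        ∑ i, (-1) ^ deg' i * α' i ^ k := by
      rw [← Finset.sum_fiberwise_of_maps_to (s := Finset.univ) (t := Z) (g := α') (fun i _ => by
        rw [hZ, Finset.mem_union]
        exact Or.inr (Finset.mem_image_of_mem _ (Finset.mem_univ i)))]
      refine Finset.sum_congr rfl fun z _ => ?_
      rw [Finset.sum_mul]
      refine Finset.sum_congr rfl fun i hi => ?_
      rw [(Finset.mem_filter.1 hi).2]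
    rw [hc]
    simp only [sub_mul, Finset.sum_sub_distrib]
    rw [e1, e2, h k hk, sub_self]
  have hc0 := pow_indep Z hne c hsum
  -- the numbers of the indices of the degree `d` with the value `z`
  have hcount : ∀ z : ℂ, (Finset.univ.filter (fun i => α i = z ∧ deg i = d)).card =
      (Finset.univ.filter (fun i => α' i = z ∧ deg' i = d)).card := by
    intro z
    by_cases hzd : ‖z‖ ^ 2 = N ^ d
    · have f1 : ∀ i, α i = z → deg i = d := fun i hi => hinj _ _ (by rw [← h1 i, hi, hzd])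
      have f2 : ∀ i, α' i = z → deg' i = d := fun i hi => hinj _ _ (by rw [← h2 i, hi, hzd])
      have g1 : Finset.univ.filter (fun i => α i = z ∧ deg i = d) =
          Finset.univ.filter (fun i => α i = z) :=
        Finset.filter_congr fun i _ => ⟨fun h => h.1, fun h => ⟨h, f1 i h⟩⟩
      have g2 : Finset.univ.filter (fun i => α' i = z ∧ deg' i = d) =
          Finset.univ.filter (fun i => α' i = z) :=
        Finset.filter_congr fun i _ => ⟨fun h => h.1, fun h => ⟨h, f2 i h⟩⟩
      rw [g1, g2]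
      by_cases hz : z ∈ Z
      · have h5 := hc0 z hz
        rw [hc] at h5
        simp only at h5
        rw [Finset.sum_congr rfl fun i hi => by rw [f1 i (Finset.mem_filter.1 hi).2],
          Finset.sum_congr (s₁ := Finset.univ.filter (fun i => α' i = z)) rfl
            fun i hi => by rw [f2 i (Finset.mem_filter.1 hi).2],
          Finset.sum_const, Finset.sum_const, nsmul_eq_mul, nsmul_eq_mul, ← sub_mul] at h5
        have h6 := (mul_eq_zero.1 h5).resolve_right (pow_ne_zero _ (by norm_num))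
        exact_mod_cast sub_eq_zero.1 h6
      · have k1 : Finset.univ.filter (fun i => α i = z) = ∅ := by
          rw [Finset.filter_eq_empty_iff]
          intro i _ hi
          exact hz (by
            rw [hZ, Finset.mem_union]
            exact Or.inl (Finset.mem_image.2 ⟨i, Finset.mem_univ i, hi⟩))
        have k2 : Finset.univ.filter (fun i => α' i = z) = ∅ := by
          rw [Finset.filter_eq_empty_iff]
          intro i _ hi
          exact hz (by
            rw [hZ, Finset.mem_union]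
            exact Or.inr (Finset.mem_image.2 ⟨i, Finset.mem_univ i, hi⟩))
        rw [k1, k2, Finset.card_empty, Finset.card_empty]
    · have k1 : Finset.univ.filter (fun i => α i = z ∧ deg i = d) = ∅ := by
        rw [Finset.filter_eq_empty_iff]
        rintro i _ ⟨hi, hd⟩
        exact hzd (by rw [← hi, h1 i, hd])
      have k2 : Finset.univ.filter (fun i => α' i = z ∧ deg' i = d) = ∅ := by
        rw [Finset.filter_eq_empty_iff]
        rintro i _ ⟨hi, hd⟩
        exact hzd (by rw [← hi, h2 i, hd])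
      rw [k1, k2, Finset.card_empty, Finset.card_empty]
  have e1 : ∏ i ∈ Finset.univ.filter (fun i => deg i = d), (1 - α i * T)⁻¹ =
      ∏ z ∈ Z, (1 - z * T)⁻¹ ^ (Finset.univ.filter (fun i => α i = z ∧ deg i = d)).card := by
    rw [← Finset.prod_fiberwise_of_maps_to (s := Finset.univ.filter (fun i => deg i = d)) (t := Z)
      (g := α) (fun i _ => by
        rw [hZ, Finset.mem_union]
        exact Or.inl (Finset.mem_image_of_mem _ (Finset.mem_univ i)))]
    refine Finset.prod_congr rfl fun z _ => ?_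
    rw [Finset.filter_filter, Finset.prod_congr rfl fun i hi => by
      rw [(Finset.mem_filter.1 hi).2.2], Finset.prod_const]
    congr 2
    exact Finset.filter_congr fun i _ => and_comm
  have e2 : ∏ i ∈ Finset.univ.filter (fun i => deg' i = d), (1 - α' i * T)⁻¹ =
      ∏ z ∈ Z, (1 - z * T)⁻¹ ^ (Finset.univ.filter (fun i => α' i = z ∧ deg' i = d)).card := by
    rw [← Finset.prod_fiberwise_of_maps_to (s := Finset.univ.filter (fun i => deg' i = d)) (t := Z)
      (g := α') (fun i _ => by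
        rw [hZ, Finset.mem_union]
        exact Or.inr (Finset.mem_image_of_mem _ (Finset.mem_univ i)))]
    refine Finset.prod_congr rfl fun z _ => ?_
    rw [Finset.filter_filter, Finset.prod_congr rfl fun i hi => by
      rw [(Finset.mem_filter.1 hi).2.2], Finset.prod_const]
    congr 2
    exact Finset.filter_congr fun i _ => and_comm
  rw [e1, e2]
  exact Finset.prod_congr rfl fun z _ => by rw [hcount z]

section K
variable {K : Type} [Field K] [NumberField K] {m r : ℕ} {n : Fin r → ℕ} (a : Fin m → 𝓞 K)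
  (b : ∀ t : Fin r, Fin (n t) → 𝓞 K)

/-- there are extensions of the residue field of each degree -/
lemma ext_ex (v : HeightOneSpectrum (𝓞 K)) {k : ℕ} (hk : 1 ≤ k) :
    ∃ (F : Type) (_ : Field F) (_ : Fintype F) (f : 𝓞 K →+* F),
      (∀ x, f x = 0 ↔ x ∈ v.asIdeal) ∧ Fintype.card F = Ideal.absNorm v.asIdeal ^ k := by
  have : NeZero k := ⟨by omega⟩
  have hmax : v.asIdeal.IsMaximal := v.isMaximal
  let : Field (𝓞 K ⧸ v.asIdeal) := Ideal.Quotient.field v.asIdeal
  have : Finite (𝓞 K ⧸ v.asIdeal) := Ideal.finiteQuotientOfFreeOfNeBot v.asIdeal v.ne_bot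
  obtain ⟨p, hp⟩ := CharP.exists (𝓞 K ⧸ v.asIdeal)
  have := hp
  have : Fact p.Prime := ⟨CharP.char_is_prime (𝓞 K ⧸ v.asIdeal) p⟩
  let : Fintype (FiniteField.Extension (𝓞 K ⧸ v.asIdeal) p k) := Fintype.ofFinite _
  refine ⟨FiniteField.Extension (𝓞 K ⧸ v.asIdeal) p k, inferInstance, inferInstance,
    (algebraMap (𝓞 K ⧸ v.asIdeal) (FiniteField.Extension (𝓞 K ⧸ v.asIdeal) p k)).comp
      (Ideal.Quotient.mk v.asIdeal), fun x => ?_, ?_⟩
  · change (algebraMap (𝓞 K ⧸ v.asIdeal) (FiniteField.Extension (𝓞 K ⧸ v.asIdeal) p k))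
      (Ideal.Quotient.mk v.asIdeal x) = 0 ↔ _
    rw [map_eq_zero, Ideal.Quotient.eq_zero_iff_mem]
  · rw [← Nat.card_eq_fintype_card, FiniteField.natCard_extension, Ideal.absNorm_apply,
      Submodule.cardQuot_apply]

/-- uniqueness of the Euler factor -/
theorem frob_unique {v : HeightOneSpectrum (𝓞 K)} {ι ι' : Type} [Fintype ι] [Fintype ι']
    {deg : ι → ℕ} {deg' : ι' → ℕ} {α : ι → ℂ} {α' : ι' → ℂ} (h1 : IsFrobX a b v deg α)
    (h2 : IsFrobX a b v deg' α') (i : ℕ) (T : ℂ) :
    ∏ j ∈ Finset.univ.filter (fun j => deg j + 1 = 2 * i), (1 - α j * T)⁻¹ =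
      ∏ j ∈ Finset.univ.filter (fun j => deg' j + 1 = 2 * i), (1 - α' j * T)⁻¹ := by
  have hN : (1 : ℝ) < (Ideal.absNorm v.asIdeal : ℝ) := by
    have h3 : Ideal.absNorm v.asIdeal ≠ 0 := by
      intro h
      exact v.ne_bot (Ideal.absNorm_eq_zero_iff.1 h)
    have h4 : Ideal.absNorm v.asIdeal ≠ 1 := by
      intro h
      exact v.isPrime.ne_top (Ideal.absNorm_eq_one_iff.1 h)
    have h5 : 1 < Ideal.absNorm v.asIdeal := by omega
    exact_mod_cast h5
  rcases Nat.eq_zero_or_pos i with rfl | hi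
  · simp
  have e1 : ∀ x : ℕ, x + 1 = 2 * i ↔ x = 2 * i - 1 := fun x => by omega
  simp only [e1]
  refine prod_unique hN h1.1 h2.1 (fun k hk => ?_) _ T
  obtain ⟨F, _, _, f, hf, hF⟩ := ext_ex v hk
  rw [← h1.2 F f k hf hF, ← h2.2 F f k hf hF]

/-- uniqueness of the `L`-function -/
theorem lx_unique {i : ℕ} {Φ Ψ : ℂ → ℂ} (h1 : IsLX a b i Φ) (h2 : IsLX a b i Ψ) {s : ℂ}
    (hs : (i : ℝ) + 1 / 2 < s.re) : Φ s = Ψ s := by
  obtain ⟨ι, _, deg, α, a1, a2⟩ := h1
  obtain ⟨ι', _, deg', β, b1, b2⟩ := h2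
  refine (a2 s hs).unique ((b2 s hs).congr_fun fun v => ?_)
  exact frob_unique a b (a1 v.1 v.2) (b1 v.1 v.2) i _

end K

end Pool.Agent.H451.XV
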