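import Mathlib
import Pool.Agent.H451.XV.A1
import Pool.Agent.H451.XP.A8
import Pool.Agent.H451.PV.A6

/-!
# The values of the `L`-functions of the products
-/

set_option autoImplicit false
set_option linter.unusedSectionVars false
set_option linter.unusedVariables false

namespace Pool.Agent.H451.XV

open NumberField IsDedekindDomain
open Pool.Agent.H921R2.TatePole (nm)
open Pool.Agent.Y703.CT
open Pool.Agent.Y696.CT
open Pool.Agent.Y696.CTK hiding toC_w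
open Pool.Agent.Y692.QS hiding chi Jc Jc_nr chi_red chi_neg_one
open Pool.Agent.Y715.T.Rec (cs nn)
open Pool.Agent.Y715.T.RecG (Pq)
open Pool.Agent.H451.BB
open Pool.Agent.H451.XP
open Pool.Agent.H451.PV (PLq Gen rem_val pn gen_base base_plq cube_of pdet_pn)
open Pool.Agent.H451.CubT (DS E Good Gd nm_P)
open Pool.Agent.H508.Y (pdet)
open scoped Classical PeriodPair

section K
variable {K : Type} [Field K] [NumberField K] [IsCyclotomicExtension {3} ℚ K] (j : Ei ≃+* 𝓞 K)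

include j in
/-- the `L`-functions and their values, over the primes of the Eisenstein integers; `Z` is any condition
which implies that the values are not zero -/
theorem famV {m r : ℕ} {n : Fin r → ℕ} (a : Fin m → Ei) (b : ∀ t : Fin r, Fin (n t) → Ei)
    (ha : ∀ i, a i ≠ 0) (hb : ∀ t i, b t i ≠ 0) (Z : Prop)
    (h : ∀ (S : Idx m) (τ : ∀ t, Ty (n t)), ∃ d b' c' : Ei, PLq d ∧
      (∀ ρ : Ei, Prime ρ → ¬ ρ ^ 3 ∣ d) ∧ d ≠ 0 ∧ b' ≠ 0 ∧ c' ≠ 0 ∧
      b' ^ 3 * DX a b S.1 τ = c' ^ 3 * d ∧ (Z → PL d)) (i : ℕ) :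
    ∃ L : ℂ → ℂ, Differentiable ℂ L ∧
      (∀ s : ℂ, (i : ℝ) + 1 / 2 < s.re → HasProd (fun P : {P // GPX a b P} =>
        ∏ q ∈ Finset.univ.filter (fun q : IX m n => dg q + 1 = 2 * i),
          (1 - eX a b P.1 q * Np P.1 ^ (-s))⁻¹) (L s)) ∧
      ∃ q : ℚ, (Z → q ≠ 0) ∧ L i = q *
        ((∏ y : Cod m n i, pn (nr (DX a b y.1.1.1 fun t => ty (y.1.2 t))) : ℝ) : ℂ) := by
  have hbad := bad_finX a b ha hb
  set B : Finset (HeightOneSpectrum Ei) := hbad.toFinset with hB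
  have hBm : ∀ P, P ∉ B ↔ GPX a b P := by
    intro P
    rw [hB, Set.Finite.mem_toFinset]
    exact not_not
  have key : ∀ (S : Idx m) (τ : ∀ t, Ty (n t)), ∃ (L : ℂ → ℂ) (q : ℚ), Differentiable ℂ L ∧
      (Z → L 1 ≠ 0) ∧ (∀ s : ℂ, 3 / 2 < s.re →
        HasProd (fun P : {P // P ∉ B} => (fac (DX a b S.1 τ) s P.1)⁻¹) (L s)) ∧
      L 1 = q * (pn (nr (DX a b S.1 τ)) : ℂ) := by
    intro S τ
    obtain ⟨d, b', c', hd, hd3, hd0, hb0, hc0, hbc, hZ⟩ := h S τ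
    obtain ⟨L, k1, k2, k3, q, k4⟩ := rem_val hd3 hb0 hc0 hbc hd hd0 B fun P hP => by
      obtain ⟨g1, g2, g3⟩ := (hBm P).1 hP
      exact ⟨g1, ndvd_DX (rho_pq g1).prime g2 g3 S.1 τ⟩
    exact ⟨L, q, k1, fun hz => k2 (hZ hz), k3, k4⟩
  choose L q hL using key
  refine ⟨fun s => ∏ q : Idx m × ∀ t, Cl (n t), if (m - 3) / 2 + ∑ t, sh (q.2 t) + 1 = i then
    L q.1 (fun t => ty (q.2 t)) (s - (((m - 3) / 2 + ∑ t, sh (q.2 t) : ℕ) : ℂ)) else 1,
    ?_, fun s hs => ?_, ∏ y : Cod m n i, q y.1.1 (fun t => ty (y.1.2 t)), fun hz => ?_, ?_⟩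
  · refine Differentiable.fun_finsetProd fun q _ => ?_
    split_ifs
    · exact (hL q.1 fun t => ty (q.2 t)).1.comp (differentiable_id.sub_const _)
    · exact differentiable_const _
  · have h1 : HasProd (fun P : {P // P ∉ B} =>
        ∏ q : Idx m × ∀ t, Cl (n t), if (m - 3) / 2 + ∑ t, sh (q.2 t) + 1 = i then
          (fac (DX a b q.1.1 fun t => ty (q.2 t))
            (s - (((m - 3) / 2 + ∑ t, sh (q.2 t) : ℕ) : ℂ)) P.1)⁻¹ else 1)
        (∏ q : Idx m × ∀ t, Cl (n t), if (m - 3) / 2 + ∑ t, sh (q.2 t) + 1 = i then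
          L q.1 (fun t => ty (q.2 t)) (s - (((m - 3) / 2 + ∑ t, sh (q.2 t) : ℕ) : ℂ)) else 1) := by
      refine hasProd_prod fun q _ => ?_
      by_cases hq : (m - 3) / 2 + ∑ t, sh (q.2 t) + 1 = i
      · simp only [if_pos hq]
        refine (hL q.1 fun t => ty (q.2 t)).2.2.1 _ ?_
        rw [Complex.sub_re, Complex.natCast_re]
        have e : (i : ℝ) = (((m - 3) / 2 + ∑ t, sh (q.2 t) : ℕ) : ℝ) + 1 := by
          rw [← hq]
          push_cast
          ring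
        rw [e] at hs
        linarith
      · simp only [if_neg hq]
        exact hasProd_one
    have h2 := (Equiv.hasProd_iff (Equiv.subtypeEquivRight fun P => (hBm P).symm)
      (f := fun P : {P // P ∉ B} => ∏ q : Idx m × ∀ t, Cl (n t),
        if (m - 3) / 2 + ∑ t, sh (q.2 t) + 1 = i then
          (fac (DX a b q.1.1 fun t => ty (q.2 t))
            (s - (((m - 3) / 2 + ∑ t, sh (q.2 t) : ℕ) : ℂ)) P.1)⁻¹ else 1)).2 h1
    refine h2.congr_fun fun P => ?_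
    exact eX_prod a b i P.1 s
  · refine Finset.prod_ne_zero_iff.2 fun y _ h0 => ?_
    obtain ⟨-, k2, -, k4⟩ := hL y.1.1 fun t => ty (y.1.2 t)
    apply k2 hz
    rw [k4, h0]
    simp
  · have e : ∀ y : Idx m × ∀ t, Cl (n t), (m - 3) / 2 + ∑ t, sh (y.2 t) + 1 = i →
        (i : ℂ) - ((((m - 3) / 2 : ℕ) : ℂ) + ∑ t, ((sh (y.2 t) : ℕ) : ℂ)) = 1 := by
      intro y hy
      rw [← hy]
      push_cast
      ring
    show ∏ y : Idx m × ∀ t, Cl (n t), (if (m - 3) / 2 + ∑ t, sh (y.2 t) + 1 = i then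
      L y.1 (fun t => ty (y.2 t)) (i - (((m - 3) / 2 + ∑ t, sh (y.2 t) : ℕ) : ℂ)) else 1) = _
    rw [← Finset.prod_filter, Finset.prod_subtype (F := inferInstanceAs (Fintype (Cod m n i)))
      (p := fun y : Idx m × ∀ t, Cl (n t) => (m - 3) / 2 + ∑ t, sh (y.2 t) + 1 = i) _ (by simp)]
    push_cast
    rw [← Finset.prod_mul_distrib]
    refine Finset.prod_congr rfl fun y _ => ?_
    rw [e y.1 y.2]
    exact (hL y.1.1 fun t => ty (y.1.2 t)).2.2.2

variable {m r : ℕ} {n : Fin r → ℕ} (a : Fin m → 𝓞 K) (b : ∀ t : Fin r, Fin (n t) → 𝓞 K)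

lemma dx_ne {R : Type} [CommRing R] [IsDomain R] {a : Fin m → R} {b : ∀ t : Fin r, Fin (n t) → R}
    (ha : ∀ i, a i ≠ 0) (hb : ∀ t i, b t i ≠ 0) (S : Finset (Fin m)) (τ : ∀ t, Ty (n t)) :
    DX a b S τ ≠ 0 := by
  have h1 : ∀ {k : ℕ} (c : Fin k → R), (∀ i, c i ≠ 0) → ∀ T : Finset (Fin k), DS c T ≠ 0 := by
    intro k c hc T
    unfold DS
    exact mul_ne_zero (Finset.prod_ne_zero_iff.2 fun i _ => hc i)
      (Finset.prod_ne_zero_iff.2 fun i _ => hc i)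
  unfold DX
  refine mul_ne_zero (h1 a ha S) (Finset.prod_ne_zero_iff.2 fun t _ => ?_)
  rcases τ t with _ | T
  · exact one_ne_zero
  · exact h1 (b t) (hb t) T.1

/-- **the `L`-function of each degree and its value at the centre** -/
theorem valX (hj : ∀ z : Ei, Algebra.norm ℤ (j z) = Pool.Agent.Y692.QS.nr z)
    (hm : m = 3 ∨ m = 5 ∨ m = 7) (hn : ∀ t, n t = 2 ∨ n t = 4) (ha : ∀ i, a i ≠ 0)
    (hb : ∀ t i, b t i ≠ 0)
    (hG : ∀ (S : Idx m) (τ : ∀ t, Ty (n t)), Gen (j.symm (DX a b S.1 τ))) (i : ℕ) :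
    ∃ L : ℂ → ℂ, Differentiable ℂ L ∧ IsLX a b i L ∧
      ∃ q : ℚ, ((ZX (fun i => j.symm (a i)) (fun t i => j.symm (b t i))) → q ≠ 0) ∧
        L i = q * ((∏ y : Cod m n i,
          pn (Algebra.norm ℤ (DX a b y.1.1.1 fun t => ty (y.1.2 t))) : ℝ) : ℂ) := by
  have hi : ∀ x : 𝓞 K, x ≠ 0 → j.symm x ≠ 0 := fun x hx h => hx (by
    rw [← j.apply_symm_apply x, h, map_zero])
  have hDX : ∀ (S : Idx m) (τ : ∀ t, Ty (n t)),
      DX (fun i => j.symm (a i)) (fun t i => j.symm (b t i)) S.1 τ = j.symm (DX a b S.1 τ) :=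
    fun S τ => DX_map (j.symm : 𝓞 K →+* Ei) a b S.1 τ
  have hE : ∀ (S : Idx m) (τ : ∀ t, Ty (n t)), ∃ d b' c' : Ei, PLq d ∧
      (∀ ρ : Ei, Prime ρ → ¬ ρ ^ 3 ∣ d) ∧ d ≠ 0 ∧ b' ≠ 0 ∧ c' ≠ 0 ∧
      b' ^ 3 * DX (fun i => j.symm (a i)) (fun t i => j.symm (b t i)) S.1 τ = c' ^ 3 * d ∧
      ((ZX (fun i => j.symm (a i)) (fun t i => j.symm (b t i))) → PL d) := by
    intro S τ
    by_cases hZ : ZX (fun i => j.symm (a i)) (fun t i => j.symm (b t i))
    · obtain ⟨d, b', c', hB, hb', hc', h1⟩ := hZ S τ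
      obtain ⟨p1, p2, p3, -⟩ := base_all (K := K) j hB
      have hd1 : d ≠ 1 := by
        intro h2
        rw [h2, mul_one, hDX] at h1
        obtain ⟨t, ht⟩ := cube_of hb' h1
        exact (hG S τ).2 1 t isUnit_one ht
      exact ⟨d, b', c', base_plq hB hd1, p2, p3, hb', hc', h1, fun _ => p1⟩
    · obtain ⟨c', d, hc', hd, hcd, h3, hp⟩ := gen_base (hG S τ)
      refine ⟨d, 1, c', hp, h3, hd, one_ne_zero, hc', ?_, fun h => absurd h hZ⟩
      rw [one_pow, one_mul, hDX]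
      exact hcd
  obtain ⟨L, h1, h3, q, hq, h4⟩ := famV j (fun i => j.symm (a i)) (fun t i => j.symm (b t i))
    (fun i => hi _ (ha i)) (fun t i => hi _ (hb t i)) _ hE i
  refine ⟨L, h1, ⟨IX m n, inferInstance, dg,
    fun v => eX (fun i => j.symm (a i)) (fun t i => j.symm (b t i)) ((eK j).symm v),
    fun v hv => frobX j a b hm hn v hv, fun s hs => ?_⟩, q, hq, ?_⟩
  · have h5 := h3 s hs
    have e2 : ∀ P : HeightOneSpectrum Ei, (Ideal.absNorm (eK j P).asIdeal : ℂ) = Np P := by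
      intro P
      have h0 : (eK j P) = pK j P := rfl
      unfold Np
      rw [← nm_P j P, h0]
      push_cast
      rfl
    have h6 := (Equiv.hasProd_iff ((eK j).subtypeEquiv
      (p := GPX (fun i => j.symm (a i)) (fun t i => j.symm (b t i))) (q := Gdx a b)
      (gdx_iff j a b hm))
      (f := fun v : {v // Gdx a b v} => ∏ q ∈ Finset.univ.filter
        (fun q : IX m n => dg q + 1 = 2 * i),
        (1 - eX (fun i => j.symm (a i)) (fun t i => j.symm (b t i)) ((eK j).symm v.1) q *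
          (Ideal.absNorm v.1.asIdeal : ℂ) ^ (-s))⁻¹) (a := L s)).1
    apply h6
    refine h5.congr_fun fun P => ?_
    show ∏ q ∈ Finset.univ.filter (fun q : IX m n => dg q + 1 = 2 * i),
        (1 - eX (fun i => j.symm (a i)) (fun t i => j.symm (b t i)) ((eK j).symm (eK j P.1)) q *
          (Ideal.absNorm (eK j P.1).asIdeal : ℂ) ^ (-s))⁻¹ = _
    rw [Equiv.symm_apply_apply, e2]
  · rw [h4]
    congr 2
    refine Finset.prod_congr rfl fun y _ => ?_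
    rw [hDX, ← hj, j.apply_symm_apply]

/-- the determinant of the period matrix -/
lemma det_PMX (hj : ∀ z : Ei, Algebra.norm ℤ (j z) = Pool.Agent.Y692.QS.nr z)
    (ha : ∀ i, a i ≠ 0) (hb : ∀ t i, b t i ≠ 0) (τ : K →+* ℂ) {δ : K} (hδ : δ ^ 2 = -3)
    {M : Idx m → (∀ t, Ty (n t)) → PeriodPair} (hM : IsPerX a b τ M) (i : ℕ) :
    ∃ q : ℚ, q ≠ 0 ∧ (PMX τ δ M i).det =
      q * ∏ y : Cod m n i, pn (Algebra.norm ℤ (DX a b y.1.1.1 fun t => ty (y.1.2 t))) := by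
  have h1 : ∀ (S : Idx m) (θ : ∀ t, Ty (n t)), ∃ q : ℚ, q ≠ 0 ∧
      pdet (τ δ) (M S θ) = q * pn (Algebra.norm ℤ (DX a b S.1 θ)) := by
    intro S θ
    have h2 : j.symm (DX a b S.1 θ) ≠ 0 := fun h => dx_ne ha hb S.1 θ (by
      rw [← j.apply_symm_apply (DX a b S.1 θ), h, map_zero])
    obtain ⟨q, hq, h3⟩ := pdet_pn j h2 τ hδ (hM S θ).1 (by
      rw [j.apply_symm_apply]
      exact (hM S θ).2)
    refine ⟨q, hq, ?_⟩
    rw [h3, ← hj, j.apply_symm_apply]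
  choose q hq0 hq using h1
  refine ⟨∏ y : Cod m n i, q y.1.1 fun t => ty (y.1.2 t),
    Finset.prod_ne_zero_iff.2 fun y _ => hq0 _ _, ?_⟩
  unfold PMX
  rw [Matrix.det_blockDiagonal]
  push_cast
  rw [← Finset.prod_mul_distrib]
  refine Finset.prod_congr rfl fun y _ => ?_
  rw [← hq y.1.1 fun t => ty (y.1.2 t), Matrix.det_fin_two_of]
  rfl

end K

end Pool.Agent.H451.XV
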