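import Mathlib
import Pool.Agent.H451.XV.A2
import Pool.Agent.H451.XB.A2

/-!
# The conjecture of Beilinson for the products of diagonal cubics: the final theorem
-/

set_option autoImplicit false
set_option linter.unusedSectionVars false
set_option linter.unusedVariables false

namespace Pool.Agent.H451.XV

open NumberField IsDedekindDomain Finset
open Pool.Agent.Y692.QS (Ei w toC nr nr_mul nr_nonneg nr_zero_iff)
open Pool.Agent.H451.BB (Base)
open Pool.Agent.H451.XP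
open Pool.Agent.H451.PV (Gen gen_iff cont_eq cont_order)
open Pool.Agent.H451.TB (SelRoot)
open Pool.Agent.H451.CubT (DS E)
open Pool.Agent.H508.Y (pdet)
open scoped Classical PeriodPair

section K
variable {K : Type} [Field K] [NumberField K] [IsCyclotomicExtension {3} ℚ K] (j : Ei ≃+* 𝓞 K)
variable {m r : ℕ} {n : Fin r → ℕ} (a : Fin m → 𝓞 K) (b : ∀ t : Fin r, Fin (n t) → 𝓞 K)

/-- the lattices exist -/
theorem per_exX (ha : ∀ i, a i ≠ 0) (hb : ∀ t i, b t i ≠ 0) (τ : K →+* ℂ) :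
    ∃ M : Idx m → (∀ t, Ty (n t)) → PeriodPair, IsPerX a b τ M := by
  have h1 : ∀ (S : Idx m) (θ : ∀ t, Ty (n t)), ∃ M : PeriodPair, M.g₂ = 0 ∧
      M.g₃ = -(τ ((DX a b S.1 θ : 𝓞 K) : K)) ^ 2 := fun S θ =>
    Pool.Agent.H508.Y.exists_period ((map_ne_zero τ).2 (by exact_mod_cast dx_ne ha hb S.1 θ))
  choose M hM using h1
  exact ⟨M, hM⟩

/-- the determinants are not zero -/
theorem det_neX {K : Type} [Field K] {m r : ℕ} {n : Fin r → ℕ} (τ : K →+* ℂ) {δ : K}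
    (hδ : δ ^ 2 = -3) (M : Idx m → (∀ t, Ty (n t)) → PeriodPair) (i : ℕ) :
    (PMX τ δ M i).det ≠ 0 := by
  have h1 : (τ δ) ^ 2 = -3 := by rw [← map_pow, hδ, map_neg, map_ofNat]
  unfold PMX
  rw [Matrix.det_blockDiagonal]
  refine Finset.prod_ne_zero_iff.2 fun y _ => ?_
  rw [Matrix.det_fin_two_of]
  exact Pool.Agent.H508.Y.pdet_ne h1 (M y.1.1 fun t => ty (y.1.2 t))

/-- **One product.** -/
theorem oneX (hj : ∀ z : Ei, Algebra.norm ℤ (j z) = nr z)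
    (hm : m = 3 ∨ m = 5 ∨ m = 7) (hn : ∀ t, n t = 2 ∨ n t = 4) (ha : ∀ i, a i ≠ 0)
    (hb : ∀ t i, b t i ≠ 0)
    (hG : ∀ (S : Idx m) (τ : ∀ t, Ty (n t)), Gen (j.symm (DX a b S.1 τ))) :
    FormulaX a b ∧
      ((ZX (fun i => j.symm (a i)) (fun t i => j.symm (b t i))) → AllPartsX a b) := by
  have hval := valX j a b hj hm hn ha hb hG
  have hper : ∀ (i : ℕ) (L : ℂ → ℂ) (q : ℚ), L i = q * ((∏ y : Cod m n i,
      Pool.Agent.H451.PV.pn (Algebra.norm ℤ (DX a b y.1.1.1 fun t => ty (y.1.2 t))) : ℝ) : ℂ) →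
      ∀ (τ : K →+* ℂ) (δ : K) (M : Idx m → (∀ t, Ty (n t)) → PeriodPair), δ ^ 2 = -3 →
        IsPerX a b τ M → ∃ t : ℚ, t ≠ 0 ∧ L i = (q / t : ℚ) * (PMX τ δ M i).det := by
    intro i L q hL τ δ M hδ hM
    obtain ⟨t, ht0, ht⟩ := det_PMX j a b hj ha hb τ hδ hM i
    refine ⟨t, ht0, ?_⟩
    rw [hL, ht]
    have ht' : (t : ℂ) ≠ 0 := by exact_mod_cast ht0
    push_cast
    field_simp
  refine ⟨fun i => ?_, fun hZ => ?_⟩
  · obtain ⟨L, h1, h2, q, hq, hL⟩ := hval i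
    refine ⟨L, h1, h2, fun τ δ M hδ hM => ?_⟩
    obtain ⟨t, -, ht⟩ := hper i L q hL τ δ M hδ hM
    exact ⟨_, ht⟩
  · have hAll : AllCodim a b := allX j a b hm hn ha hb hZ
    have key : ∀ i : ℕ, ∃ L : ℂ → ℂ, Differentiable ℂ L ∧ IsLX a b i L ∧ L i ≠ 0 ∧
        ∀ (τ : K →+* ℂ) (δ : K) (M : Idx m → (∀ t, Ty (n t)) → PeriodPair), δ ^ 2 = -3 →
          IsPerX a b τ M → ∃ q : ℚ, q ≠ 0 ∧ L i = q * (PMX τ δ M i).det := by
      intro i
      obtain ⟨L, h1, h2, q, hq, hL⟩ := hval i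
      have hq0 := hq hZ
      have hne : L i ≠ 0 := by
        obtain ⟨L', k1, k2, k3⟩ := hAll.lfun.choose_spec.choose_spec.choose_spec.choose_spec.2 i
        have k4 : IsLX a b i L' := ⟨_, _, _, _,
          hAll.lfun.choose_spec.choose_spec.choose_spec.choose_spec.1, k3⟩
        have k5 : L = L' := by
          have k6 : L =ᶠ[nhdsWithin (i : ℂ) {(i : ℂ)}ᶜ] L' :=
            cont_eq isOpen_univ isPreconnected_univ (Set.mem_univ _) (fun _ _ => Set.mem_univ _)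
              (fun s _ => (h1.analyticAt s).meromorphicAt) k1 fun s hs => lx_unique a b h2 k4 hs
          funext s
          have k8 : Set.EqOn L L' Set.univ :=
            (h1.differentiableOn.analyticOnNhd isOpen_univ).eqOn_of_preconnected_of_frequently_eq
              (k1.differentiableOn.analyticOnNhd isOpen_univ) isPreconnected_univ
              (Set.mem_univ (i : ℂ)) k6.frequently
          exact k8 (Set.mem_univ s)
        rw [k5]
        exact k2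
      refine ⟨L, h1, h2, hne, fun τ δ M hδ hM => ?_⟩
      obtain ⟨t, ht0, ht⟩ := hper i L q hL τ δ M hδ hM
      exact ⟨q / t, div_ne_zero hq0 ht0, ht⟩
    have hcont : ∀ (i : ℕ) (Φ : ℂ → ℂ), IsContX a b i Φ → meromorphicOrderAt Φ i = 0 ∧
        ∀ (τ : K →+* ℂ) (δ : K) (M : Idx m → (∀ t, Ty (n t)) → PeriodPair), δ ^ 2 = -3 →
          IsPerX a b τ M → ∃ q : ℚ, q ≠ 0 ∧
            meromorphicTrailingCoeffAt Φ i = q * (PMX τ δ M i).det := by
      rintro i Φ ⟨g1, U, g2, g3, g4, g5, g6⟩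
      obtain ⟨L, h1, h2, hne, hv⟩ := key i
      obtain ⟨h3, h4⟩ := cont_order (cont_eq g2 g3 g4 g5 g6 h1 fun s hs => lx_unique a b g1 h2 hs)
        h1 hne
      refine ⟨h3, fun τ δ M hδ hM => ?_⟩
      rw [h4]
      exact hv τ δ M hδ hM
    refine ⟨hAll.finite, fun i => ?_, fun i Φ hΦ => (hcont i Φ hΦ).1,
      fun i Φ hΦ => (hcont i Φ hΦ).2⟩
    obtain ⟨L, h1, h2, -, -⟩ := key i
    exact ⟨L, h1, h2⟩

/-- the norm of a parameter -/
lemma norm_DX (ha : ∀ i, ¬ (3 : ℤ) ∣ Algebra.norm ℤ (a i))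
    (hb : ∀ t i, ¬ (3 : ℤ) ∣ Algebra.norm ℤ (b t i)) (S : Finset (Fin m)) (τ : ∀ t, Ty (n t)) :
    ¬ (3 : ℤ) ∣ Algebra.norm ℤ (DX a b S τ) := by
  intro h
  unfold DX at h
  rw [map_mul, map_prod] at h
  rcases Int.prime_three.dvd_or_dvd h with h1 | h1
  · exact Pool.Agent.H451.PV.norm_DS ha S h1
  · obtain ⟨t, -, ht⟩ := (Int.prime_three.dvd_finsetProd_iff _).1 h1
    rcases hτ : τ t with _ | T
    · rw [hτ] at ht
      have h2 : cf (b t) (none : Ty (n t)) = 1 := rfl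
      rw [h2, map_one] at ht
      exact absurd ht (by norm_num)
    · rw [hτ] at ht
      exact Pool.Agent.H451.PV.norm_DS (hb t) T.1 ht

omit [IsCyclotomicExtension {3} ℚ K] in
lemma norm_DXeq (S : Finset (Fin m)) (τ : ∀ t, Ty (n t)) : Algebra.norm ℤ (DX a b S τ) =
    DX (fun i => Algebra.norm ℤ (a i)) (fun t i => Algebra.norm ℤ (b t i)) S τ := by
  have h1 : ∀ {k : ℕ} (c : Fin k → 𝓞 K) (T : Finset (Fin k)), Algebra.norm ℤ (DS c T) =
      DS (fun i => Algebra.norm ℤ (c i)) T := by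
    intro k c T
    unfold DS
    rw [map_mul, map_prod, map_prod]
  unfold DX
  rw [map_mul, map_prod, h1]
  congr 1
  refine Finset.prod_congr rfl fun t _ => ?_
  rcases τ t with _ | T
  · exact map_one _
  · exact h1 (b t) T.1

omit [IsCyclotomicExtension {3} ℚ K] in
/-- the norms of the parameters in a box -/
lemma norm_res {ρ : Fin m → ℕ} {σ : ∀ t : Fin r, Fin (n t) → ℕ} (h : Res ρ σ) {X : ℕ}
    {p : (Fin m → 𝓞 K) × (∀ t : Fin r, Fin (n t) → 𝓞 K)} (hp : p ∈ BoxX K ρ σ X) (S : Idx m)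
    (τ : ∀ t, Ty (n t)) : Algebra.norm ℤ (DX p.1 p.2 S.1 τ) % 9 ≠ 1 := by
  have h1 := h.2.2 S τ
  have hc : ∀ x y : ℤ, x % 9 = y → ((x : ℤ) : ZMod 9) = ((y : ℤ) : ZMod 9) := by
    intro x y hxy
    rw [← hxy]
    exact (ZMod.intCast_mod x 9).symm
  have h2 : ((Algebra.norm ℤ (DX p.1 p.2 S.1 τ) : ℤ) : ZMod 9) =
      ((DX (fun i => (ρ i : ℤ)) (fun t i => (σ t i : ℤ)) S.1 τ : ℤ) : ZMod 9) := by
    have e1 := DX_map (Int.castRingHom (ZMod 9)) (fun i => Algebra.norm ℤ (p.1 i))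
      (fun t i => Algebra.norm ℤ (p.2 t i)) S.1 τ
    have e2 := DX_map (Int.castRingHom (ZMod 9)) (fun i => (ρ i : ℤ)) (fun t i => (σ t i : ℤ))
      S.1 τ
    rw [norm_DXeq]
    refine (e1.symm.trans ?_).trans e2
    congr 1
    · funext i
      exact hc _ _ (hp.1 i).2.2.2
    · funext t i
      exact hc _ _ (hp.2 t i).2.2.2
  have h3 : Algebra.norm ℤ (DX p.1 p.2 S.1 τ) % 9 =
      DX (fun i => (ρ i : ℤ)) (fun t i => (σ t i : ℤ)) S.1 τ % 9 :=
    (ZMod.intCast_eq_intCast_iff' _ _ 9).1 h2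
  intro h4
  apply h1
  rw [← h3]
  exact h4

lemma cube_mod' {x : ℤ} (hx : x % 3 = 1) : x ^ 3 % 9 = 1 := by
  obtain ⟨t, ht⟩ : ∃ t, x = 3 * t + 1 := ⟨x / 3, by omega⟩
  have : x ^ 3 = 9 * (3 * t ^ 3 + 3 * t ^ 2 + t) + 1 := by rw [ht]; ring
  omega

/-- trivial Selmer groups in a box -/
theorem boxV (hj : ∀ z : Ei, Algebra.norm ℤ (j z) = nr z)
    (hm : m = 3 ∨ m = 5 ∨ m = 7) (hn : ∀ t, n t = 2 ∨ n t = 4)
    {ρ : Fin m → ℕ} {σ : ∀ t : Fin r, Fin (n t) → ℕ} (h : Res ρ σ) {X : ℕ}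
    {p : (Fin m → 𝓞 K) × (∀ t : Fin r, Fin (n t) → 𝓞 K)} (hp : p ∈ BoxX K ρ σ X)
    (hs : ∀ (S : Idx m) (τ : ∀ t, Ty (n t)),
      (SelRoot ((DX p.1 p.2 S.1 τ : 𝓞 K) : K)).ncard = 3) : AllPartsX p.1 p.2 := by
  have ha : ∀ i, p.1 i ≠ 0 := fun i => (hp.1 i).2.1.ne_zero
  have hb : ∀ t i, p.2 t i ≠ 0 := fun t i => (hp.2 t i).2.1.ne_zero
  have ha3 : ∀ i, ¬ (3 : ℤ) ∣ Algebra.norm ℤ (p.1 i) := fun i => by
    have h1 := (hp.1 i).2.2.2
    rcases h.1 i with h2 | h2 <;> rw [h2] at h1 <;> push_cast at h1 <;> omega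
  have hb3 : ∀ t i, ¬ (3 : ℤ) ∣ Algebra.norm ℤ (p.2 t i) := fun t i => by
    have h1 := (hp.2 t i).2.2.2
    rcases h.2.1 t i with h2 | h2 <;> rw [h2] at h1 <;> push_cast at h1 <;> omega
  have hZ : ZX (fun i => j.symm (p.1 i)) (fun t i => j.symm (p.2 t i)) := by
    intro S τ
    have h1 := hs S τ
    rw [← twist_pk p (S, τ)] at h1
    have h2 := base_mono j hj (res_pk h) ((box_iff ρ σ X p).1 hp) (res_adm h (S, τ)) h1
    rw [twist_pk] at h2
    have h4 : DX (fun i => j.symm (p.1 i)) (fun t i => j.symm (p.2 t i)) S.1 τ =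
        j.symm (DX p.1 p.2 S.1 τ) := DX_map (j.symm : 𝓞 K →+* Ei) p.1 p.2 S.1 τ
    rw [h4]
    exact h2
  refine (oneX j p.1 p.2 hj hm hn ha hb fun S τ => ?_).2 hZ
  refine gen_iff j hj (norm_DX p.1 p.2 ha3 hb3 S.1 τ) fun u c hu hD => ?_
  -- the norm of a unit times a cube is `1` modulo `9`
  have h3 := norm_DX p.1 p.2 ha3 hb3 S.1 τ
  have hu1 : Algebra.norm ℤ u = 1 := by
    have h4 : IsUnit (j.symm u) := hu.map j.symm
    rw [Pool.Agent.Y692.QS.isUnit_iff] at h4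
    rw [← h4, ← hj, j.apply_symm_apply]
  have h5 : Algebra.norm ℤ (DX p.1 p.2 S.1 τ) = Algebra.norm ℤ c ^ 3 := by
    rw [hD, map_mul, map_pow, hu1, one_mul]
  have h6 : ¬ (3 : ℤ) ∣ Algebra.norm ℤ c := by
    intro h7
    apply h3
    rw [h5]
    exact Dvd.dvd.pow h7 (by norm_num)
  have h7 : Algebra.norm ℤ c % 3 = 1 := by
    have h8 : Algebra.norm ℤ c = nr (j.symm c) := by rw [← hj, j.apply_symm_apply]
    rw [h8] at h6 ⊢
    have h9 := Pool.Agent.H462.CTU.LK.nr_mod h6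
    omega
  have h8 := cube_mod' h7
  have h9 := norm_res h hp S τ
  rw [h5] at h9
  omega

end K

end Pool.Agent.H451.XV
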