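import Mathlib
import Pool.Agent.H451.XV.A3

/-!
# The conjecture of Beilinson for the products of diagonal cubics: the final theorem
-/

set_option autoImplicit false
set_option linter.unusedSectionVars false
set_option linter.unusedVariables false

namespace Pool.Agent.H451.XV

open NumberField IsDedekindDomain
open Pool.Agent.H451.XP
open Pool.Agent.H451.PV (Gen gen_iff)
open Pool.Agent.H451.TB (SelRoot)
open scoped Classical PeriodPair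

/-- **Main theorem.** -/
theorem final_XV (K : Type) [Field K] [NumberField K] [IsCyclotomicExtension {3} ℚ K] (m : ℕ)
    (hm : m = 3 ∨ m = 5 ∨ m = 7) (r : ℕ) (n : Fin r → ℕ) (hn : ∀ t, n t = 2 ∨ n t = 4) :
    (∀ (a : Fin m → 𝓞 K) (b : ∀ t : Fin r, Fin (n t) → 𝓞 K), MotX a b ∧
      (∃ (ι : Type) (_ : Fintype ι) (deg : ι → ℕ) (α : HeightOneSpectrum (𝓞 K) → ι → ℂ),
        ∀ v, Gdx a b v → IsFrobX a b v deg (α v)) ∧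
      ∀ (i : ℕ) (Φ Ψ : ℂ → ℂ), IsLX a b i Φ → IsLX a b i Ψ →
        ∀ s : ℂ, (i : ℝ) + 1 / 2 < s.re → Φ s = Ψ s) ∧
    ((∃ δ : K, δ ^ 2 = -3) ∧
      (∀ (a : Fin m → 𝓞 K) (b : ∀ t : Fin r, Fin (n t) → 𝓞 K), (∀ i, a i ≠ 0) →
        (∀ t i, b t i ≠ 0) → ∀ τ : K →+* ℂ,
        ∃ M : Idx m → (∀ t, Ty (n t)) → PeriodPair, IsPerX a b τ M) ∧
      ∀ (τ : K →+* ℂ) (δ : K) (M : Idx m → (∀ t, Ty (n t)) → PeriodPair) (i : ℕ), δ ^ 2 = -3 →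
        (PMX τ δ M i).det ≠ 0) ∧
    (∀ (a : Fin m → 𝓞 K) (b : ∀ t : Fin r, Fin (n t) → 𝓞 K),
      (∀ i, ¬ (3 : ℤ) ∣ Algebra.norm ℤ (a i)) → (∀ t i, ¬ (3 : ℤ) ∣ Algebra.norm ℤ (b t i)) →
      (∀ (S : Idx m) (θ : ∀ t, Ty (n t)) (u c : 𝓞 K), IsUnit u → DX a b S.1 θ ≠ u * c ^ 3) →
      FormulaX a b) ∧
    (∃ c : ℝ, 0 < c ∧ ∃ X₀ : ℕ, ∀ X : ℕ, X₀ ≤ X → c * ((AllX K m n X).ncard : ℝ) ≤
      ({p | p ∈ AllX K m n X ∧ AllPartsX p.1 p.2}.ncard : ℝ)) ∧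
    (∃ (ρ : Fin m → ℕ) (σ : ∀ t : Fin r, Fin (n t) → ℕ), Res ρ σ) ∧
    ∀ (ρ : Fin m → ℕ) (σ : ∀ t : Fin r, Fin (n t) → ℕ), Res ρ σ →
      (∃ c : ℝ, 0 < c ∧ ∃ X₀ : ℕ, ∀ X : ℕ, X₀ ≤ X →
        c * (X : ℝ) ^ (m + ∑ t, n t) ≤ ((BoxX K ρ σ X).ncard : ℝ)) ∧
      (∀ X : ℕ, ∀ p ∈ BoxX K ρ σ X, (∀ (S : Idx m) (θ : ∀ t, Ty (n t)),
        (SelRoot ((DX p.1 p.2 S.1 θ : 𝓞 K) : K)).ncard = 3) → AllPartsX p.1 p.2) ∧
      Filter.Tendsto (fun X : ℕ =>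
        ({p | p ∈ BoxX K ρ σ X ∧ ∀ (S : Idx m) (θ : ∀ t, Ty (n t)),
          (SelRoot ((DX p.1 p.2 S.1 θ : 𝓞 K) : K)).ncard = 3}.ncard : ℝ) /
        ((BoxX K ρ σ X).ncard : ℝ)) Filter.atTop
        (nhds ((∏' i : ℕ, (1 - (1 / 3 : ℝ) ^ (2 * i + 1))) ^
          (m.choose ((m - 3) / 2) * ∏ t, (1 + (n t).choose (n t / 2))))) := by
  obtain ⟨⟨j, hj⟩, -⟩ := Pool.Agent.Y455.CTK.jex K
  obtain ⟨h1, -, h3, h4⟩ := final_XP K m hm r n hn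
  obtain ⟨p1, -⟩ := Pool.Agent.H451.PV.per_ex (K := K)
  refine ⟨fun a b => ⟨(h1 a b).1, (h1 a b).2, fun i Φ Ψ g1 g2 s hs => lx_unique a b g1 g2 hs⟩,
    ⟨p1, fun a b ha hb τ => per_exX a b ha hb τ, fun τ δ M i hδ => det_neX τ hδ M i⟩,
    fun a b ha hb hu => ?_,
    Pool.Agent.H451.XB.pos_prop K m hm r n hn (fun p => AllPartsX p.1 p.2)
      fun ρ σ h X p hp hs => boxV j hj hm hn h hp hs, h3, fun ρ σ h => ?_⟩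
  · have ha0 : ∀ i, a i ≠ 0 := fun i h0 => by
      apply ha i
      rw [h0]
      simp
    have hb0 : ∀ t i, b t i ≠ 0 := fun t i h0 => by
      apply hb t i
      rw [h0]
      simp
    exact (oneX j a b hj hm hn ha0 hb0 fun S θ =>
      gen_iff j hj (norm_DX a b ha hb S.1 θ) (hu S θ)).1
  · obtain ⟨g1, -, -, g4⟩ := h4 ρ σ h
    exact ⟨g1, fun X p hp hs => boxV j hj hm hn h hp hs, g4⟩

end Pool.Agent.H451.XV
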